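import Mathlib

/-! # Cauchy-Binet over functions -/

set_option autoImplicit false

open Finset Matrix

namespace Q52.Kosz

variable {R : Type*} [CommRing R] {ι κ : Type*} [Fintype ι] [DecidableEq ι] [Fintype κ]

/-- Expansion of the determinant of a product over all functions. -/
theorem det_mul_expand (A : Matrix ι κ R) (B : Matrix κ ι R) :
    (A * B).det = ∑ I : ι → κ, (∏ a, A a (I a)) * (B.submatrix I id).det := by
  have h1 : (A * B).det = Matrix.detRowAlternating (fun a => ∑ i, A a i • B i) := by
    change Matrix.detRowAlternating (A * B) = _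
    congr 1
    funext a b
    simp [Matrix.mul_apply, Finset.sum_apply]
  rw [h1]
  have h2 := (Matrix.detRowAlternating (n := ι) (R := R)).toMultilinearMap.map_sum
    (fun (a : ι) (i : κ) => A a i • B i)
  refine h2.trans ?_
  refine Finset.sum_congr rfl fun I _ => ?_
  have h3 := (Matrix.detRowAlternating (n := ι) (R := R)).toMultilinearMap.map_smul_univ
    (fun a => A a (I a)) (fun a => B (I a))
  refine h3.trans ?_
  rfl

/-- Cauchy-Binet over functions. -/
theorem cb (A : Matrix ι κ R) (B : Matrix κ ι R) :
    ((Fintype.card ι).factorial : R) * (A * B).det =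
      ∑ I : ι → κ, (A.submatrix id I).det * (B.submatrix I id).det := by
  have key : ∀ σ : Equiv.Perm ι, (A * B).det = ∑ I : ι → κ,
      (((Equiv.Perm.sign σ : ℤˣ) : ℤ) : R) * (∏ a, A a (I (σ a))) * (B.submatrix I id).det := by
    intro σ
    rw [det_mul_expand]
    have h := Equiv.sum_comp (Equiv.arrowCongr σ.symm (Equiv.refl κ))
      (fun I : ι → κ => (∏ a, A a (I a)) * (B.submatrix I id).det)
    rw [← h]
    refine Finset.sum_congr rfl fun I _ => ?_
    have h1 : (Equiv.arrowCongr σ.symm (Equiv.refl κ)) I = I ∘ σ := by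
      funext a
      simp [Equiv.arrowCongr]
    rw [h1]
    have h2 : B.submatrix (I ∘ σ) id = (B.submatrix I id).submatrix σ id := by
      ext a b
      rfl
    rw [h2, Matrix.det_permute]
    simp only [Function.comp_apply]
    ring
  have h3 : ∑ σ : Equiv.Perm ι, (A * B).det = ((Fintype.card ι).factorial : R) * (A * B).det := by
    rw [Finset.sum_const, Finset.card_univ, Fintype.card_perm, nsmul_eq_mul]
  rw [← h3, Finset.sum_congr rfl fun σ _ => key σ, Finset.sum_comm]
  refine Finset.sum_congr rfl fun I _ => ?_
  rw [← Finset.sum_mul]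
  congr 1
  rw [← Matrix.det_transpose, Matrix.det_apply']
  rfl

/-- The Gram determinant form. -/
theorem cb_self (A : Matrix ι κ R) :
    ((Fintype.card ι).factorial : R) * (A * Aᵀ).det =
      ∑ I : ι → κ, (A.submatrix id I).det ^ 2 := by
  rw [cb]
  refine Finset.sum_congr rfl fun I _ => ?_
  have : Aᵀ.submatrix I id = (A.submatrix id I)ᵀ := by
    ext a b; rfl
  rw [this, Matrix.det_transpose]
  ring

end Q52.Kosz
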