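import Mathlib
import Pool.Agent.Q52.Kosz.CB

set_option autoImplicit false

/-! # The Gram matrix of the presentation matrix of the Koszul module of a graph -/

open Finset Matrix

namespace Q52.Kosz

section Koszul

variable {R : Type*} [CommRing R] {n : ℕ}

/-- The Kronecker delta. -/
def dl (R : Type*) [CommRing R] {n : ℕ} (a b : Fin n) : R := if a = b then 1 else 0

/-- The antisymmetrised entries of the Koszul differential. -/
def KK (x : Fin n → R) (i j a b c : Fin n) : R :=
  x c * (dl R i a * dl R j b - dl R i b * dl R j a)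
    - x b * (dl R i a * dl R j c - dl R i c * dl R j a)
    + x a * (dl R i b * dl R j c - dl R i c * dl R j b)

theorem sumKK (x : Fin n → R) (i j : Fin n) (g : Fin n → Fin n → Fin n → R) :
    ∑ a, ∑ b, ∑ c, KK x i j a b c * g a b c =
      ∑ c, x c * (g i j c - g j i c - g i c j + g j c i + g c i j - g c j i) := by
  have e1 : ∑ a, ∑ b, ∑ c, x c * (dl R i a * dl R j b) * g a b c = ∑ c, x c * g i j c := by
    simp [dl]
  have e2 : ∑ a, ∑ b, ∑ c, x c * (dl R i b * dl R j a) * g a b c = ∑ c, x c * g j i c := by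
    simp [dl]
  have e3 : ∑ a, ∑ b, ∑ c, x b * (dl R i a * dl R j c) * g a b c = ∑ c, x c * g i c j := by
    simp [dl]
  have e4 : ∑ a, ∑ b, ∑ c, x b * (dl R i c * dl R j a) * g a b c = ∑ c, x c * g j c i := by
    simp [dl]
  have e5 : ∑ a, ∑ b, ∑ c, x a * (dl R i b * dl R j c) * g a b c = ∑ c, x c * g c i j := by
    simp [dl]
  have e6 : ∑ a, ∑ b, ∑ c, x a * (dl R i c * dl R j b) * g a b c = ∑ c, x c * g c j i := by
    simp [dl]
  have hL : ∑ a, ∑ b, ∑ c, KK x i j a b c * g a b c =
      (∑ a, ∑ b, ∑ c, x c * (dl R i a * dl R j b) * g a b c)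
      - (∑ a, ∑ b, ∑ c, x c * (dl R i b * dl R j a) * g a b c)
      - (∑ a, ∑ b, ∑ c, x b * (dl R i a * dl R j c) * g a b c)
      + (∑ a, ∑ b, ∑ c, x b * (dl R i c * dl R j a) * g a b c)
      + (∑ a, ∑ b, ∑ c, x a * (dl R i b * dl R j c) * g a b c)
      - (∑ a, ∑ b, ∑ c, x a * (dl R i c * dl R j b) * g a b c) := by
    simp only [← Finset.sum_sub_distrib, ← Finset.sum_add_distrib]
    refine Finset.sum_congr rfl fun a _ => Finset.sum_congr rfl fun b _ =>
      Finset.sum_congr rfl fun c _ => ?_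
    simp only [KK]; ring
  rw [hL, e1, e2, e3, e4, e5, e6]
  simp only [← Finset.sum_sub_distrib, ← Finset.sum_add_distrib]
  exact Finset.sum_congr rfl fun c _ => by ring

theorem gramKK (x : Fin n → R) (i j k l : Fin n) :
    ∑ a, ∑ b, ∑ c, KK x i j a b c * KK x k l a b c =
      6 * ((∑ c, x c ^ 2) * (dl R k i * dl R l j - dl R k j * dl R l i)
        - x j * (x l * dl R k i - x k * dl R l i) + x i * (x l * dl R k j - x k * dl R l j)) := by
  rw [sumKK]
  have h1 : ∀ c, x c * (KK x k l i j c - KK x k l j i c - KK x k l i c j + KK x k l j c i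
      + KK x k l c i j - KK x k l c j i) =
      6 * (x c ^ 2 * (dl R k i * dl R l j - dl R k j * dl R l i)
        - x j * (x c * (dl R k i * dl R l c - dl R k c * dl R l i))
        + x i * (x c * (dl R k j * dl R l c - dl R k c * dl R l j))) := by
    intro c
    simp only [KK]; ring
  have e1 : ∑ c, x c * (dl R k i * dl R l c - dl R k c * dl R l i) =
      x l * dl R k i - x k * dl R l i := by
    simp only [mul_sub, Finset.sum_sub_distrib]
    congr 1 <;> simp [dl]
  have e2 : ∑ c, x c * (dl R k j * dl R l c - dl R k c * dl R l j) =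
      x l * dl R k j - x k * dl R l j := by
    simp only [mul_sub, Finset.sum_sub_distrib]
    congr 1 <;> simp [dl]
  rw [Finset.sum_congr rfl fun c _ => h1 c, ← Finset.mul_sum, Finset.sum_add_distrib,
    Finset.sum_sub_distrib, ← Finset.sum_mul, ← Finset.mul_sum, ← Finset.mul_sum, e1, e2]

end Koszul

section Graph

variable {n : ℕ} (G : SimpleGraph (Fin n))

/-- The non-edges `{i, j}`, `i < j`, of the graph. -/
abbrev NE : Type := {p : Fin n × Fin n // p.1 < p.2 ∧ ¬ G.Adj p.1 p.2}

/-- The edges `{i, j}`, `i < j`, of the graph. -/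
abbrev EE : Type := {p : Fin n × Fin n // p.1 < p.2 ∧ G.Adj p.1 p.2}

noncomputable instance : Fintype (NE G) := Fintype.ofFinite _
noncomputable instance : Fintype (EE G) := Fintype.ofFinite _

variable {R : Type*} [CommRing R] (x : Fin n → R)

/-- The matrix with all the columns `(a, b, c)`. -/
def bigM : Matrix (NE G) (Fin n × Fin n × Fin n) R :=
  Matrix.of fun e t => KK x e.1.1 e.1.2 t.1 t.2.1 t.2.2

/-- The vector `x_j e_i - x_i e_j`. -/
def bv (p : Fin n × Fin n) (v : Fin n) : R := x p.2 * dl R p.1 v - x p.1 * dl R p.2 v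

/-- The matrix whose columns are the vectors of the non-edges. -/
def matB : Matrix (Fin n) (NE G) R := Matrix.of fun v e => bv x e.1 v

/-- The matrix whose columns are the vectors of the edges, together with the vector `x`. -/
def matC : Matrix (Fin n) (Option (EE G)) R := Matrix.of fun v o =>
  match o with
  | none => x v
  | some e => bv x e.1 v

theorem bigM_mul : bigM G x * (bigM G x)ᵀ =
    (6 : R) • ((∑ c, x c ^ 2) • (1 : Matrix (NE G) (NE G) R) - (matB G x)ᵀ * matB G x) := by
  classical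
  ext e f
  have h1 : (bigM G x * (bigM G x)ᵀ) e f =
      ∑ a, ∑ b, ∑ c, KK x e.1.1 e.1.2 a b c * KK x f.1.1 f.1.2 a b c := by
    simp only [Matrix.mul_apply, Matrix.transpose_apply, bigM, Matrix.of_apply]
    rw [Fintype.sum_prod_type]
    refine Finset.sum_congr rfl fun a _ => ?_
    rw [Fintype.sum_prod_type]
  rw [h1, gramKK]
  have h2 : ((matB G x)ᵀ * matB G x) e f =
      x e.1.2 * x f.1.2 * dl R f.1.1 e.1.1 - x e.1.2 * x f.1.1 * dl R f.1.2 e.1.1
      - x e.1.1 * x f.1.2 * dl R f.1.1 e.1.2 + x e.1.1 * x f.1.1 * dl R f.1.2 e.1.2 := by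
    simp only [Matrix.mul_apply, Matrix.transpose_apply, matB, Matrix.of_apply, bv]
    have : ∀ v, (x e.1.2 * dl R e.1.1 v - x e.1.1 * dl R e.1.2 v) *
        (x f.1.2 * dl R f.1.1 v - x f.1.1 * dl R f.1.2 v) =
        dl R e.1.1 v * (x e.1.2 * (x f.1.2 * dl R f.1.1 v - x f.1.1 * dl R f.1.2 v))
        - dl R e.1.2 v * (x e.1.1 * (x f.1.2 * dl R f.1.1 v - x f.1.1 * dl R f.1.2 v)) := by
      intro v; ring
    rw [Finset.sum_congr rfl fun v _ => this v, Finset.sum_sub_distrib]
    have e1 : ∀ (a : Fin n) (g : Fin n → R), ∑ v, dl R a v * g v = g a := by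
      intro a g; simp [dl]
    rw [e1, e1]
    ring
  have h3 : (1 : Matrix (NE G) (NE G) R) e f =
      dl R f.1.1 e.1.1 * dl R f.1.2 e.1.2 - dl R f.1.1 e.1.2 * dl R f.1.2 e.1.1 := by
    have he := e.2.1
    have hf := f.2.1
    have h4 : dl R f.1.1 e.1.2 * dl R f.1.2 e.1.1 = 0 := by
      by_cases h : f.1.1 = e.1.2
      · have h5 : f.1.2 ≠ e.1.1 := by
          intro h6
          rw [h, h6] at hf
          exact absurd (he.trans hf) (lt_irrefl _)
        simp [dl, h5]
      · simp [dl, h]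
    rw [h4, sub_zero]
    by_cases h : e = f
    · subst h; simp [dl]
    · rw [Matrix.one_apply_ne h]
      by_cases h5 : f.1.1 = e.1.1
      · have h6 : f.1.2 ≠ e.1.2 := by
          intro h6
          exact h (Subtype.ext (Prod.ext h5.symm h6.symm))
        simp [dl, h6]
      · simp [dl, h5]
  simp only [Matrix.smul_apply, Matrix.sub_apply, smul_eq_mul]
  rw [h2, h3]
  ring

theorem sum_pairs {S : Type*} [AddCommGroup S] (f : Fin n × Fin n → S)
    (hf : ∀ i j, f (i, j) = f (j, i)) (h0 : ∀ i, f (i, i) = 0) :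
    ∑ i, ∑ j, f (i, j) = (2 : ℕ) • ((∑ e : EE G, f e.1) + ∑ e : NE G, f e.1) := by
  classical
  have h1 : (∑ e : EE G, f e.1) = ∑ p ∈ Finset.univ.filter (fun p : Fin n × Fin n => p.1 < p.2 ∧ G.Adj p.1 p.2), f p := by
    rw [Finset.sum_subtype (p := fun p : Fin n × Fin n => p.1 < p.2 ∧ G.Adj p.1 p.2)
      (F := inferInstance)]
    intro x; simp
  have h2 : (∑ e : NE G, f e.1) = ∑ p ∈ Finset.univ.filter (fun p : Fin n × Fin n => p.1 < p.2 ∧ ¬ G.Adj p.1 p.2), f p := by
    rw [Finset.sum_subtype (p := fun p : Fin n × Fin n => p.1 < p.2 ∧ ¬ G.Adj p.1 p.2)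
      (F := inferInstance)]
    intro x; simp
  have h3 : (∑ e : EE G, f e.1) + (∑ e : NE G, f e.1) =
      ∑ p ∈ Finset.univ.filter (fun p : Fin n × Fin n => p.1 < p.2), f p := by
    rw [h1, h2, ← Finset.filter_filter, ← Finset.filter_filter]
    exact Finset.sum_filter_add_sum_filter_not _ _ _
  rw [h3, two_nsmul]
  have h4 : ∑ p ∈ Finset.univ.filter (fun p : Fin n × Fin n => p.1 < p.2), f p =
      ∑ p ∈ Finset.univ.filter (fun p : Fin n × Fin n => p.2 < p.1), f p := by
    refine Finset.sum_nbij' (fun p => (p.2, p.1)) (fun p => (p.2, p.1)) ?_ ?_ ?_ ?_ ?_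
    · intro p hp; simpa using hp
    · intro p hp; simpa using hp
    · intro p _; rfl
    · intro p _; rfl
    · intro p _; exact hf _ _
  nth_rewrite 2 [h4]
  have h5 : ∑ i, ∑ j, f (i, j) = ∑ p : Fin n × Fin n, f p := (Fintype.sum_prod_type f).symm
  rw [h5, ← Finset.sum_filter_add_sum_filter_not Finset.univ (fun p : Fin n × Fin n => p.1 < p.2)]
  congr 1
  rw [← Finset.sum_filter_add_sum_filter_not
    (Finset.univ.filter (fun p : Fin n × Fin n => ¬ p.1 < p.2)) (fun p => p.2 < p.1)]
  rw [Finset.filter_filter, Finset.filter_filter]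
  have h6 : ∑ p ∈ Finset.univ.filter (fun p : Fin n × Fin n => ¬ p.1 < p.2 ∧ ¬ p.2 < p.1), f p = 0 := by
    refine Finset.sum_eq_zero fun p hp => ?_
    simp only [Finset.mem_filter, Finset.mem_univ, true_and, not_lt] at hp
    have : p = (p.1, p.1) := Prod.ext rfl (le_antisymm hp.1 hp.2)
    rw [this, h0]
  rw [h6, add_zero]
  refine Finset.sum_congr ?_ fun _ _ => rfl
  ext p
  simp only [Finset.mem_filter, Finset.mem_univ, true_and]
  constructor
  · rintro ⟨_, h⟩; exact h
  · intro h; exact ⟨not_lt.2 h.le, h⟩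

theorem matC_mul [IsDomain R] [CharZero R] : matC G x * (matC G x)ᵀ =
    (∑ c, x c ^ 2) • (1 : Matrix (Fin n) (Fin n) R) - matB G x * (matB G x)ᵀ := by
  classical
  ext u v
  have h1 : (matC G x * (matC G x)ᵀ) u v = x u * x v + ∑ e : EE G, bv x e.1 u * bv x e.1 v := by
    simp only [Matrix.mul_apply, Matrix.transpose_apply]
    rw [Fintype.sum_option]
    rfl
  have h2 : (matB G x * (matB G x)ᵀ) u v = ∑ e : NE G, bv x e.1 u * bv x e.1 v := by
    simp only [Matrix.mul_apply, Matrix.transpose_apply]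
    rfl
  have h3 := sum_pairs G (fun p => bv x p u * bv x p v)
    (fun i j => by simp only [bv]; ring) (fun i => by simp only [bv]; ring)
  have h4 : ∑ i, ∑ j, (bv x (i, j) u * bv x (i, j) v) =
      2 * ((∑ c, x c ^ 2) * dl R u v - x u * x v) := by
    have : ∀ i j, bv x (i, j) u * bv x (i, j) v =
        x j ^ 2 * (dl R i u * dl R i v) - (x i * dl R i v) * (x j * dl R j u)
        - (x i * dl R i u) * (x j * dl R j v) + (x i ^ 2) * (dl R j u * dl R j v) := by
      intro i j; simp only [bv]; ring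
    simp only [this, Finset.sum_add_distrib, Finset.sum_sub_distrib]
    simp only [← Finset.mul_sum, ← Finset.sum_mul]
    have e1 : ∀ u, ∑ i, x i * dl R i u = x u := by intro u; simp [dl]
    have e2 : ∑ i, dl R i u * dl R i v = dl R u v := by simp [dl, eq_comm]
    rw [e1, e1, e2]
    ring
  simp only [Matrix.sub_apply, Matrix.smul_apply, smul_eq_mul]
  rw [h1, h2]
  have h5 : (1 : Matrix (Fin n) (Fin n) R) u v = dl R u v := by
    simp [Matrix.one_apply, dl]
  rw [h5]
  rw [h3, nsmul_eq_mul] at h4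
  have h6 := mul_left_cancel₀ (two_ne_zero' R) h4
  linear_combination h6

/-- The determinant of the Gram matrix. -/
theorem det_gram [IsDomain R] [CharZero R] :
    (∑ c, x c ^ 2) ^ n * (bigM G x * (bigM G x)ᵀ).det =
      6 ^ Fintype.card (NE G) * ((∑ c, x c ^ 2) ^ Fintype.card (NE G) *
        (matC G x * (matC G x)ᵀ).det) := by
  classical
  rw [bigM_mul, matC_mul, Matrix.det_smul]
  have h := congrArg (Polynomial.eval (∑ c, x c ^ 2))
    (Matrix.charpoly_mul_comm' (matB G x)ᵀ (matB G x))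
  simp only [Polynomial.eval_mul, Polynomial.eval_pow, Polynomial.eval_X, Matrix.eval_charpoly,
    Fintype.card_fin] at h
  have e1 : Matrix.scalar (NE G) (∑ c, x c ^ 2) - (matB G x)ᵀ * matB G x =
      (∑ c, x c ^ 2) • (1 : Matrix (NE G) (NE G) R) - (matB G x)ᵀ * matB G x := by
    rw [Matrix.smul_one_eq_diagonal]; rfl
  have e2 : Matrix.scalar (Fin n) (∑ c, x c ^ 2) - matB G x * (matB G x)ᵀ =
      (∑ c, x c ^ 2) • (1 : Matrix (Fin n) (Fin n) R) - matB G x * (matB G x)ᵀ := by
    rw [Matrix.smul_one_eq_diagonal]; rfl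
  rw [e1, e2] at h
  linear_combination 6 ^ Fintype.card (NE G) * h

end Graph

end Q52.Kosz
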