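import Mathlib
import Pool.Agent.Q52.Kosz.Alg

set_option autoImplicit false

/-! # Determinants of spanning subgraphs -/

open Finset Matrix

namespace Q52.Kosz

variable {n : ℕ} [NeZero n] (G : SimpleGraph (Fin n))

/-- The reduced incidence matrix. -/
def redM (J : Fin n → Option (EE G)) : Matrix (Fin n) (Fin n) ℤ := Matrix.of fun v w =>
  match J w with
  | none => if v = 0 then 1 else 0
  | some e => if v = 0 then 0 else (if e.1.1 = v then 1 else 0) - (if e.1.2 = v then 1 else 0)

variable {R : Type*} [CommRing R]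

/-- The matrix with first column `y` and the other columns `e_v - e_0`. -/
def matQ (y : Fin n → R) : Matrix (Fin n) (Fin n) R := Matrix.of fun v u =>
  if u = 0 then y v else (if v = u then 1 else 0) - (if v = 0 then 1 else 0)

theorem det_matQ (y : Fin n → R) : (matQ y).det = ∑ v, y v := by
  classical
  let U : Matrix (Fin n) (Fin n) R := Matrix.of fun v u => if v = 0 then 1 else if v = u then 1 else 0
  have hU : U.det = 1 := by
    rw [Matrix.det_of_isUpperTriangular]
    · refine Finset.prod_eq_one fun v _ => ?_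
      simp [U]
    · intro v u hvu
      have h1 : v ≠ 0 := by
        rintro rfl
        exact absurd hvu (by simp)
      have h2 : v ≠ u := (ne_of_lt hvu).symm
      simp [U, h1, h2]
  have hL : (U * matQ y).det = ∑ v, y v := by
    have hrow : ∀ v u, (U * matQ y) v u = if v = 0 then (if u = 0 then ∑ v, y v else 0)
        else matQ y v u := by
      intro v u
      rw [Matrix.mul_apply]
      by_cases hv : v = 0
      · subst hv
        simp only [U, Matrix.of_apply, if_true, one_mul]
        by_cases hu : u = 0
        · subst hu; simp [matQ]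
        · simp [matQ, hu]
      · simp [U, hv]
    rw [Matrix.det_of_isLowerTriangular]
    · rw [← Finset.mul_prod_erase Finset.univ _ (Finset.mem_univ (0 : Fin n))]
      have h0 : (U * matQ y) 0 0 = ∑ v, y v := by rw [hrow]; simp
      rw [h0]
      have h1 : ∏ v ∈ Finset.univ.erase (0 : Fin n), (U * matQ y) v v = 1 := by
        refine Finset.prod_eq_one fun v hv => ?_
        have hv0 : v ≠ 0 := (Finset.mem_erase.1 hv).1
        rw [hrow]
        simp [matQ, hv0]
      rw [h1, mul_one]
    · intro v u hvu
      have hvu' : v < u := hvu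
      have h1 : u ≠ 0 := by
        rintro rfl
        exact absurd hvu' (by simp)
      rw [hrow]
      have h2 : v ≠ u := ne_of_lt hvu'
      by_cases hv : v = 0
      · simp [hv, h1]
      · simp [matQ, h1, h2, hv]
  rw [← hL, Matrix.det_mul, hU, one_mul]

variable (x : Fin n → R)

/-- The product of the two variables of an edge. -/
def wt (o : Option (EE G)) : R :=
  match o with
  | none => 1
  | some e => x e.1.1 * x e.1.2

theorem diag_mul_matC (J : Fin n → Option (EE G)) :
    Matrix.diagonal x * (matC G x).submatrix id J =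
      (matQ (fun v => x v ^ 2) * (redM G J).map (Int.cast : ℤ → R)) *
        Matrix.diagonal (fun w => wt G x (J w)) := by
  classical
  ext v w
  rw [Matrix.diagonal_mul, Matrix.mul_diagonal, Matrix.mul_apply]
  simp only [Matrix.submatrix_apply, id, Matrix.map_apply]
  rcases hJ : J w with _ | e
  · have h1 : ∀ u, (redM G J) u w = if u = 0 then 1 else 0 := by
      intro u; simp [redM, hJ]
    simp only [h1, matC, Matrix.of_apply, wt]
    simp [matQ]
    ring
  · have hne : e.1.1 ≠ e.1.2 := ne_of_lt e.2.1
    have h1 : ∀ u, (redM G J) u w = if u = 0 then 0 else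
        (if e.1.1 = u then 1 else 0) - (if e.1.2 = u then 1 else 0) := by
      intro u; simp [redM, hJ]
    have h2 : ∑ u, matQ (fun v => x v ^ 2) v u * (((redM G J) u w : ℤ) : R) =
        dl R e.1.1 v - dl R e.1.2 v := by
      have h3 : ∀ u, matQ (fun v => x v ^ 2) v u * (((redM G J) u w : ℤ) : R) =
          (if e.1.1 = u then (if u = 0 then 0 else (if v = u then 1 else 0) -
            (if v = 0 then 1 else 0)) else 0) -
          (if e.1.2 = u then (if u = 0 then 0 else (if v = u then 1 else 0) -
            (if v = 0 then 1 else 0)) else 0) := by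
        intro u
        rw [h1]
        by_cases hu : u = 0
        · subst hu; simp
        · by_cases ha : e.1.1 = u <;> by_cases hb : e.1.2 = u <;>
            simp [matQ, hu, ha, hb]
      rw [Finset.sum_congr rfl fun u _ => h3 u, Finset.sum_sub_distrib]
      simp only [Finset.sum_ite_eq, Finset.mem_univ, if_true]
      by_cases ha : e.1.1 = 0
      · have hb : e.1.2 ≠ 0 := fun h => hne (ha.trans h.symm)
        simp only [ha, if_true, hb, if_false, dl]
        by_cases hv : v = 0
        · subst hv; simp [hb, Ne.symm hb]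
        · by_cases hv2 : v = e.1.2
          · simp [hv2, hb, Ne.symm hb]
          · simp [hv, hv2, Ne.symm hv, Ne.symm hv2]
      · by_cases hb : e.1.2 = 0
        · simp only [ha, if_true, hb, if_false, dl]
          by_cases hv : v = 0
          · subst hv; simp [ha, Ne.symm ha]
          · simp [hv, Ne.symm hv, eq_comm]
        · simp only [ha, hb, if_false, dl]
          simp only [eq_comm (a := v)]
          ring
    rw [h2]
    simp only [matC, Matrix.of_apply, wt, bv]
    by_cases ha : e.1.1 = v <;> by_cases hb : e.1.2 = v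
    · exact absurd (ha.trans hb.symm) hne
    · simp [dl, ha, hb]
      try ring
    · simp [dl, ha, hb]
      try ring
    · simp [dl, ha, hb]

theorem det_matC (J : Fin n → Option (EE G)) :
    (∏ v, x v) * ((matC G x).submatrix id J).det =
      (∑ v, x v ^ 2) * (((redM G J).det : ℤ) : R) * ∏ w, wt G x (J w) := by
  have h := congrArg Matrix.det (diag_mul_matC G x J)
  rw [Matrix.det_mul, Matrix.det_diagonal, Matrix.det_mul, Matrix.det_diagonal, Matrix.det_mul,
    det_matQ] at h
  rw [h]
  congr 2
  exact (Int.cast_det _).symm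

/-! ### Spanning trees -/

/-- The graph of the edges which occur in `J`. -/
def grJ (J : Fin n → Option (EE G)) : SimpleGraph (Fin n) where
  Adj a b := ∃ (w : Fin n) (e : EE G), J w = some e ∧
    ((e.1.1 = a ∧ e.1.2 = b) ∨ (e.1.1 = b ∧ e.1.2 = a))
  symm := ⟨by
    rintro a b ⟨w, e, h, h1⟩
    exact ⟨w, e, h, h1.symm⟩⟩
  loopless := ⟨by
    rintro a ⟨w, e, _, h | h⟩
    · exact absurd (h.1.trans h.2.symm) (ne_of_lt e.2.1)
    · exact absurd (h.1.trans h.2.symm) (ne_of_lt e.2.1)⟩

theorem grJ_le (J : Fin n → Option (EE G)) : grJ G J ≤ G := by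
  rintro a b ⟨w, e, _, h | h⟩
  · rw [← h.1, ← h.2]; exact e.2.2
  · rw [← h.1, ← h.2]; exact e.2.2.symm

theorem inj_of_det {J : Fin n → Option (EE G)} (h : (redM G J).det ≠ 0) : Function.Injective J := by
  classical
  intro w w' hw
  by_contra hne
  apply h
  refine Matrix.det_zero_of_column_eq hne fun v => ?_
  simp [redM, hw]

theorem exists_none_of_det {J : Fin n → Option (EE G)} (h : (redM G J).det ≠ 0) :
    ∃ w, J w = none := by
  classical
  by_contra hne
  push Not at hne
  apply h
  refine Matrix.det_eq_zero_of_row_eq_zero 0 fun w => ?_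
  obtain ⟨e, he⟩ := Option.ne_none_iff_exists'.1 (hne w)
  simp [redM, he]

/-- The product of a row vector and a column of the reduced matrix. -/
theorem vecMul_redM (J : Fin n → Option (EE G)) (y : Fin n → ℤ) (w : Fin n) :
    (y ᵥ* redM G J) w = match J w with
      | none => y 0
      | some e => (if e.1.1 = 0 then 0 else y e.1.1) - (if e.1.2 = 0 then 0 else y e.1.2) := by
  classical
  rw [Matrix.vecMul, dotProduct]
  rcases hJ : J w with _ | e
  · simp [redM, hJ]
  · have h1 : ∀ u, y u * (redM G J) u w =
        (if e.1.1 = u then (if u = 0 then 0 else y u) else 0) -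
        (if e.1.2 = u then (if u = 0 then 0 else y u) else 0) := by
      intro u
      simp only [redM, Matrix.of_apply, hJ]
      by_cases hu : u = 0
      · simp [hu]
      · by_cases ha : e.1.1 = u <;> by_cases hb : e.1.2 = u <;> simp [hu, ha, hb]
    rw [Finset.sum_congr rfl fun u _ => h1 u, Finset.sum_sub_distrib]
    simp

theorem connected_of_det {J : Fin n → Option (EE G)} (h : (redM G J).det ≠ 0) :
    (grJ G J).Connected := by
  classical
  have key : ∀ u, (grJ G J).Reachable u 0 := by
    intro u
    by_contra hu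
    apply h
    rw [← Matrix.exists_vecMul_eq_zero_iff]
    refine ⟨fun v => if (grJ G J).Reachable u v then 1 else 0, ?_, ?_⟩
    · intro h0
      have := congrFun h0 u
      simp at this
    · funext w
      rw [vecMul_redM]
      rcases hJ : J w with _ | e
      · simp [hu]
      · have hadj : (grJ G J).Adj e.1.1 e.1.2 := ⟨w, e, hJ, Or.inl ⟨rfl, rfl⟩⟩
        have hiff : (grJ G J).Reachable u e.1.1 ↔ (grJ G J).Reachable u e.1.2 :=
          ⟨fun h => h.trans hadj.reachable, fun h => h.trans hadj.reachable.symm⟩
        simp only [Pi.zero_apply]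
        by_cases ha : e.1.1 = 0
        · by_cases hb : e.1.2 = 0
          · simp [ha, hb]
          · have : ¬ (grJ G J).Reachable u e.1.2 := by rw [← hiff, ha]; exact hu
            simp [ha, hb, this]
        · by_cases hb : e.1.2 = 0
          · have : ¬ (grJ G J).Reachable u e.1.1 := by rw [hiff, hb]; exact hu
            simp [ha, hb, this]
          · simp [ha, hb, hiff]
  haveI : Nonempty (Fin n) := ⟨0⟩
  exact SimpleGraph.Connected.mk fun u v => (key u).trans (key v).symm

theorem mem_edgeSet_grJ {J : Fin n → Option (EE G)} (z : Sym2 (Fin n)) :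
    z ∈ (grJ G J).edgeSet ↔ ∃ w e, J w = some e ∧ z = s(e.1.1, e.1.2) := by
  induction z using Sym2.ind with
  | _ a b =>
    rw [SimpleGraph.mem_edgeSet]
    constructor
    · rintro ⟨w, e, h, h1 | h1⟩
      · exact ⟨w, e, h, by rw [h1.1, h1.2]⟩
      · exact ⟨w, e, h, by rw [h1.1, h1.2, Sym2.eq_swap]⟩
    · rintro ⟨w, e, h, h1⟩
      refine ⟨w, e, h, ?_⟩
      rw [Sym2.eq_iff] at h1
      rcases h1 with h1 | h1
      · exact Or.inl ⟨h1.1.symm, h1.2.symm⟩
      · exact Or.inr ⟨h1.2.symm, h1.1.symm⟩

theorem pair_inj {e f : EE G} (h : s(e.1.1, e.1.2) = s(f.1.1, f.1.2)) : e = f := by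
  rw [Sym2.eq_iff] at h
  rcases h with h | h
  · exact Subtype.ext (Prod.ext h.1 h.2)
  · have h1 := e.2.1
    rw [h.1, h.2] at h1
    exact absurd (h1.trans f.2.1) (lt_irrefl _)

theorem isTree_of_det {J : Fin n → Option (EE G)} (h : (redM G J).det ≠ 0) :
    (grJ G J).IsTree := by
  classical
  rw [SimpleGraph.isTree_iff_connected_and_card]
  refine ⟨connected_of_det G h, ?_⟩
  obtain ⟨w0, hw0⟩ := exists_none_of_det G h
  have hinj := inj_of_det G h
  have hsome : ∀ w : {w // w ≠ w0}, (J w.1).isSome := by
    intro w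
    rw [Option.isSome_iff_ne_none]
    intro hn
    exact w.2 (hinj (hn.trans hw0.symm))
  let f : {w // w ≠ w0} → (grJ G J).edgeSet := fun w =>
    ⟨s(((J w.1).get (hsome w)).1.1, ((J w.1).get (hsome w)).1.2),
      (mem_edgeSet_grJ G _).2 ⟨w.1, _, (Option.some_get (hsome w)).symm, rfl⟩⟩
  have hf : Function.Bijective f := by
    constructor
    · intro w w' hww
      have h1 := pair_inj G (Subtype.ext_iff.1 hww)
      have h2 : J w.1 = J w'.1 := by
        rw [← Option.some_get (hsome w), ← Option.some_get (hsome w'), h1]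
      exact Subtype.ext (hinj h2)
    · rintro ⟨z, hz⟩
      obtain ⟨w, e, hw, rfl⟩ := (mem_edgeSet_grJ G z).1 hz
      have hne : w ≠ w0 := by
        rintro rfl
        rw [hw0] at hw
        exact absurd hw (by simp)
      refine ⟨⟨w, hne⟩, Subtype.ext ?_⟩
      simp only [f, hw, Option.get_some]
  rw [← Nat.card_eq_of_bijective f hf]
  rw [Nat.card_eq_fintype_card, Nat.card_eq_fintype_card, Fintype.card_fin]
  have := Fintype.card_subtype_compl (fun w : Fin n => w = w0)
  simp only [Fintype.card_subtype_eq, Fintype.card_fin] at this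
  have hpos : 0 < n := Nat.pos_of_ne_zero (NeZero.ne n)
  have h3 : Fintype.card {w // w ≠ w0} = n - 1 := this
  omega

/-- The exponents of the product of the weights of `J`. -/
def expJ (J : Fin n → Option (EE G)) (v : Fin n) : ℕ := ∑ w,
  match J w with
  | none => 0
  | some e => (if e.1.1 = v then 1 else 0) + (if e.1.2 = v then 1 else 0)

theorem expJ_eq {J : Fin n → Option (EE G)} (hJ : Function.Injective J) (v : Fin n) :
    expJ G J v = ((grJ G J).neighborSet v).ncard := by
  classical
  have h1 : expJ G J v = (Finset.univ.filter fun w => ∃ e, J w = some e ∧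
      (e.1.1 = v ∨ e.1.2 = v)).card := by
    rw [Finset.card_filter]
    refine Finset.sum_congr rfl fun w _ => ?_
    rcases hw : J w with _ | e
    · simp
    · have hne : e.1.1 ≠ e.1.2 := ne_of_lt e.2.1
      by_cases ha : e.1.1 = v
      · have hb : e.1.2 ≠ v := fun hb => hne (ha.trans hb.symm)
        simp [ha, hb]
      · by_cases hb : e.1.2 = v
        · simp [ha, hb]
        · simp [ha, hb]
  have h2 : ((grJ G J).neighborSet v).ncard =
      (Finset.univ.filter fun u => (grJ G J).Adj v u).card := by
    rw [← Set.ncard_coe_finset]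
    congr 1
    ext u
    simp
  rw [h1, h2]
  refine Finset.card_bij (fun w _ => match J w with
    | none => v
    | some e => if e.1.1 = v then e.1.2 else e.1.1) ?_ ?_ ?_
  · intro w hw
    obtain ⟨e, he, h3⟩ := (Finset.mem_filter.1 hw).2
    simp only [he, Finset.mem_filter, Finset.mem_univ, true_and]
    by_cases ha : e.1.1 = v
    · rw [if_pos ha]; exact ⟨w, e, he, Or.inl ⟨ha, rfl⟩⟩
    · rw [if_neg ha]; exact ⟨w, e, he, Or.inr ⟨rfl, h3.resolve_left ha⟩⟩
  · intro w hw w' hw' heq
    obtain ⟨e, he, h3⟩ := (Finset.mem_filter.1 hw).2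
    obtain ⟨f, hf, h4⟩ := (Finset.mem_filter.1 hw').2
    simp only [he, hf] at heq
    apply hJ
    rw [he, hf]
    congr 1
    apply pair_inj G
    by_cases ha : e.1.1 = v
    · rw [if_pos ha] at heq
      by_cases hb : f.1.1 = v
      · rw [if_pos hb] at heq
        rw [ha, hb, heq]
      · rw [if_neg hb] at heq
        rw [ha, heq, h4.resolve_left hb, Sym2.eq_swap]
    · rw [if_neg ha] at heq
      by_cases hb : f.1.1 = v
      · rw [if_pos hb] at heq
        rw [hb, h3.resolve_left ha, heq, Sym2.eq_swap]
      · rw [if_neg hb] at heq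
        rw [h3.resolve_left ha, h4.resolve_left hb, heq]
  · intro u hu
    obtain ⟨w, e, he, h3⟩ := (Finset.mem_filter.1 hu).2
    rcases h3 with h3 | h3
    · refine ⟨w, Finset.mem_filter.2 ⟨Finset.mem_univ _, e, he, Or.inl h3.1⟩, ?_⟩
      simp only [he]
      rw [if_pos h3.1, h3.2]
    · refine ⟨w, Finset.mem_filter.2 ⟨Finset.mem_univ _, e, he, Or.inr h3.2⟩, ?_⟩
      simp only [he]
      have : e.1.1 ≠ v := fun h => (ne_of_lt e.2.1) (h.trans h3.2.symm)
      rw [if_neg this, h3.1]

/-- Every spanning tree comes from some `J` with nonzero determinant. -/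
theorem exists_of_isTree {T : SimpleGraph (Fin n)} (hT : T ≤ G) (htree : T.IsTree) :
    ∃ J : Fin n → Option (EE G), (redM G J).det ≠ 0 ∧ grJ G J = T := by
  classical
  let S := {e : EE G // T.Adj e.1.1 e.1.2}
  have hcard : Fintype.card S + 1 = n := by
    have h1 := (SimpleGraph.isTree_iff_connected_and_card.1 htree).2
    rw [Nat.card_eq_fintype_card (α := Fin n), Fintype.card_fin] at h1
    have hS : Fintype.card S = Nat.card T.edgeSet := by
     rw [← Nat.card_eq_fintype_card]
     refine Nat.card_eq_of_bijective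
      (fun e : S => (⟨s(e.1.1.1, e.1.1.2), e.2⟩ : T.edgeSet)) ⟨?_, ?_⟩
     · intro e f hef
       exact Subtype.ext (pair_inj G (Subtype.ext_iff.1 hef))
     · rintro ⟨z, hz⟩
       induction z using Sym2.ind with
       | _ a b =>
         have hab : T.Adj a b := hz
         rcases lt_or_gt_of_ne hab.ne with h | h
         · exact ⟨⟨⟨(a, b), h, hT hab⟩, hab⟩, rfl⟩
         · exact ⟨⟨⟨(b, a), h, hT hab.symm⟩, hab.symm⟩, Subtype.ext Sym2.eq_swap⟩
    rw [hS]; exact h1
  have hcard2 : Fintype.card (Fin n) = Fintype.card (Option S) := by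
    rw [Fintype.card_option, hcard, Fintype.card_fin]
  let φ : Fin n ≃ Option S := Fintype.equivOfCardEq hcard2
  let J : Fin n → Option (EE G) := fun w => (φ w).map Subtype.val
  have hJsome : ∀ e : S, J (φ.symm (some e)) = some e.1 := by
    intro e; simp [J]
  have hJnone : J (φ.symm none) = none := by simp [J]
  refine ⟨J, ?_, ?_⟩
  · intro h0
    rw [← Matrix.exists_vecMul_eq_zero_iff] at h0
    obtain ⟨y, hy, hy0⟩ := h0
    apply hy
    have h1 : y 0 = 0 := by
      have := congrFun hy0 (φ.symm none)
      rw [vecMul_redM, hJnone] at this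
      exact this
    have h2 : ∀ e : S, y e.1.1.1 = y e.1.1.2 := by
      intro e
      have := congrFun hy0 (φ.symm (some e))
      rw [vecMul_redM, hJsome] at this
      simp only [Pi.zero_apply] at this
      have h3 : ∀ u : Fin n, (if u = 0 then 0 else y u) = y u := by
        intro u
        by_cases hu : u = 0
        · simp [hu, h1]
        · simp [hu]
      rw [h3, h3] at this
      exact sub_eq_zero.1 this
    have h4 : ∀ a b, T.Adj a b → y a = y b := by
      intro a b hab
      rcases lt_or_gt_of_ne hab.ne with h | h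
      · exact h2 ⟨⟨(a, b), h, hT hab⟩, hab⟩
      · exact (h2 ⟨⟨(b, a), h, hT hab.symm⟩, hab.symm⟩).symm
    have h5 : ∀ a b, T.Reachable a b → y a = y b := by
      rintro a b ⟨p⟩
      induction p with
      | nil => rfl
      | cons h _ ih => exact (h4 _ _ h).trans ih
    funext v
    rw [h5 v 0 (htree.connected.preconnected v 0), h1]
    rfl
  · ext a b
    constructor
    · rintro ⟨w, e, hw, h3⟩
      have : ∃ e' : S, e'.1 = e := by
        rcases hφ : φ w with _ | e'
        · simp [J, hφ] at hw
        · refine ⟨e', ?_⟩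
          simpa [J, hφ] using hw
      obtain ⟨e', rfl⟩ := this
      rcases h3 with h3 | h3
      · rw [← h3.1, ← h3.2]; exact e'.2
      · rw [← h3.1, ← h3.2]; exact e'.2.symm
    · intro hab
      rcases lt_or_gt_of_ne hab.ne with h | h
      · exact ⟨_, _, hJsome ⟨⟨(a, b), h, hT hab⟩, hab⟩, Or.inl ⟨rfl, rfl⟩⟩
      · exact ⟨_, _, hJsome ⟨⟨(b, a), h, hT hab.symm⟩, hab.symm⟩, Or.inr ⟨rfl, rfl⟩⟩

end Q52.Kosz
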