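import Mathlib
import Pool.Agent.Q52.Kosz.Tree

set_option autoImplicit false

/-! # The Fitting ideal of the Koszul module of a graph -/

open Finset Matrix MvPolynomial

namespace Q52.Kosz

/-- The triples `a < b < c`, which index the basis `e_a ∧ e_b ∧ e_c` of the third exterior
power. -/
abbrev Tri (n : ℕ) : Type := {t : Fin n × Fin n × Fin n // t.1 < t.2.1 ∧ t.2.1 < t.2.2}

variable {n : ℕ}

/-- The presentation matrix of the Koszul module of the graph: the entry in the row of the
non-edge `{i, j}`, `i < j`, and in the column `e_a ∧ e_b ∧ e_c` is the coefficient of `e_i ∧ e_j`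
in `x_c e_a ∧ e_b - x_b e_a ∧ e_c + x_a e_b ∧ e_c`. -/
noncomputable def pres (S : Type*) [CommRing S] (G : SimpleGraph (Fin n)) :
    Matrix (NE G) (Tri n) (MvPolynomial (Fin n) S) := Matrix.of fun e t =>
  if e.1.1 = t.1.1 ∧ e.1.2 = t.1.2.1 then X t.1.2.2
  else if e.1.1 = t.1.1 ∧ e.1.2 = t.1.2.2 then - X t.1.2.1
  else if e.1.1 = t.1.2.1 ∧ e.1.2 = t.1.2.2 then X t.1.1
  else 0

/-- The ideal generated by the maximal minors of the presentation matrix. -/
noncomputable def Fitt (S : Type*) [CommRing S] (G : SimpleGraph (Fin n)) :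
    Ideal (MvPolynomial (Fin n) S) :=
  Ideal.span {d | ∃ I : NE G → Tri n, Function.Injective I ∧ d = ((pres S G).submatrix id I).det}

/-- The ideal generated by the monomials `∏ x_i ^ (deg_T(i) - 1)`, `T` a spanning tree. -/
noncomputable def treeIdeal (S : Type*) [CommRing S] (G : SimpleGraph (Fin n)) :
    Ideal (MvPolynomial (Fin n) S) :=
  Ideal.span {d | ∃ T : SimpleGraph (Fin n), T ≤ G ∧ T.IsTree ∧
    d = ∏ i, X i ^ ((T.neighborSet i).ncard - 1)}

/-! ### The minors are monomials -/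

section Mono

variable {S : Type*} [CommRing S] (G : SimpleGraph (Fin n))

/-- The exponent of a triple. -/
noncomputable def tau (t : Tri n) : Fin n →₀ ℕ :=
  Finsupp.single t.1.1 1 + Finsupp.single t.1.2.1 1 + Finsupp.single t.1.2.2 1

/-- The exponent of a pair. -/
noncomputable def eps (e : NE G) : Fin n →₀ ℕ :=
  Finsupp.single e.1.1 1 + Finsupp.single e.1.2 1

theorem pres_entry (e : NE G) (t : Tri n) :
    pres S G e t = 0 ∨ ∃ c : S, eps G e ≤ tau t ∧ pres S G e t = monomial (tau t - eps G e) c := by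
  simp only [pres, Matrix.of_apply]
  split_ifs with h1 h2 h3
  · right
    refine ⟨1, ?_, ?_⟩
    · rw [eps, tau, h1.1, h1.2]; exact le_self_add
    · rw [eps, tau, h1.1, h1.2, add_tsub_cancel_left]; rfl
  · right
    have : tau t = eps G e + Finsupp.single t.1.2.1 1 := by
      rw [eps, tau, h2.1, h2.2]; abel
    refine ⟨-1, ?_, ?_⟩
    · rw [this]; exact le_self_add
    · rw [this, add_tsub_cancel_left]; simp [X]
  · right
    have : tau t = eps G e + Finsupp.single t.1.1 1 := by
      rw [eps, tau, h3.1, h3.2]; abel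
    refine ⟨1, ?_, ?_⟩
    · rw [this]; exact le_self_add
    · rw [this, add_tsub_cancel_left]; rfl
  · left; rfl

theorem minor_monomial (I : NE G → Tri n) :
    ∃ (A : Fin n →₀ ℕ) (c : S), ((pres S G).submatrix id I).det = monomial A c := by
  classical
  refine ⟨∑ e, tau (I e) - ∑ e, eps G e, ?_⟩
  have key : ∀ σ : Equiv.Perm (NE G), ∃ c : S, ∏ e, (pres S G).submatrix id I (σ e) e =
      monomial (∑ e, tau (I e) - ∑ e, eps G e) c := by
    intro σ
    by_cases h0 : ∃ e, pres S G (σ e) (I e) = 0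
    · obtain ⟨e, he⟩ := h0
      exact ⟨0, by rw [Finset.prod_eq_zero (Finset.mem_univ e) he, map_zero]⟩
    · push Not at h0
      have h1 : ∀ e, ∃ c : S, eps G (σ e) ≤ tau (I e) ∧
          pres S G (σ e) (I e) = monomial (tau (I e) - eps G (σ e)) c :=
        fun e => (pres_entry G (σ e) (I e)).resolve_left (h0 e)
      choose c hc1 hc2 using h1
      refine ⟨∏ e, c e, ?_⟩
      have h2 : ∏ e, (pres S G).submatrix id I (σ e) e =
          ∏ e, monomial (tau (I e) - eps G (σ e)) (c e) :=
        Finset.prod_congr rfl fun e _ => hc2 e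
      rw [h2, ← MvPolynomial.monomial_sum_prod]
      congr 1
      have h3 : ∑ e, tau (I e) = ∑ e, (tau (I e) - eps G (σ e)) + ∑ e, eps G e := by
        rw [← Equiv.sum_comp σ (fun e => eps G e), ← Finset.sum_add_distrib]
        exact Finset.sum_congr rfl fun e _ => (tsub_add_cancel_of_le (hc1 e)).symm
      rw [h3, add_tsub_cancel_right]
  choose c hc using key
  refine ⟨∑ σ : Equiv.Perm (NE G), ((Equiv.Perm.sign σ : ℤ) : S) * c σ, ?_⟩
  rw [Matrix.det_apply', map_sum]
  refine Finset.sum_congr rfl fun σ _ => ?_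
  rw [hc σ, ← MvPolynomial.C_mul_monomial]
  congr 1
  try simp

theorem pres_map (e : NE G) (t : Tri n) :
    pres S G e t = MvPolynomial.map (Int.castRingHom S) (pres ℤ G e t) := by
  simp only [pres, Matrix.of_apply]
  split_ifs <;> simp

theorem minor_map (I : NE G → Tri n) : ((pres S G).submatrix id I).det =
    MvPolynomial.map (Int.castRingHom S) ((pres ℤ G).submatrix id I).det := by
  classical
  rw [RingHom.map_det]
  congr 1
  ext1 e f
  exact pres_map G e (I f)

end Mono

/-! ### Unsorted columns -/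

section Sorting

variable (G : SimpleGraph (Fin n))

theorem KK_sorted {i j a b c : Fin n} (hij : i < j) (hab : a < b) (hbc : b < c) :
    KK (X : Fin n → MvPolynomial (Fin n) ℤ) i j a b c =
      if i = a ∧ j = b then X c else if i = a ∧ j = c then - X b
        else if i = b ∧ j = c then X a else 0 := by
  have h1 : ¬ (i = b ∧ j = a) := fun h => by
    rw [h.1, h.2] at hij; exact absurd (hij.trans hab) (lt_irrefl _)
  have h2 : ¬ (i = c ∧ j = a) := fun h => by
    rw [h.1, h.2] at hij; exact absurd (hij.trans (hab.trans hbc)) (lt_irrefl _)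
  have h3 : ¬ (i = c ∧ j = b) := fun h => by
    rw [h.1, h.2] at hij; exact absurd (hij.trans hbc) (lt_irrefl _)
  have e : ∀ a b : Fin n, dl (MvPolynomial (Fin n) ℤ) i a * dl (MvPolynomial (Fin n) ℤ) j b =
      if i = a ∧ j = b then 1 else 0 := by
    intro a b
    simp only [dl]
    by_cases h : i = a <;> by_cases h' : j = b <;> simp [h, h']
  simp only [KK, e, h1, h2, h3, if_false]
  have hab' := hab.ne
  have hbc' := hbc.ne
  have hac' := (hab.trans hbc).ne
  by_cases c1 : i = a ∧ j = b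
  · have c2 : ¬ (i = a ∧ j = c) := fun h => hbc' (c1.2.symm.trans h.2)
    have c3 : ¬ (i = b ∧ j = c) := fun h => hbc' (c1.2.symm.trans h.2)
    simp [c1, c2, c3, hbc', hab']
  · by_cases c2 : i = a ∧ j = c
    · have c3 : ¬ (i = b ∧ j = c) := fun h => hab' (c2.1.symm.trans h.1)
      simp [c1, c2, hbc'.symm, hab']
    · simp [c1, c2]

theorem bigM_sorted (e : NE G) (t : Tri n) :
    bigM G (X : Fin n → MvPolynomial (Fin n) ℤ) e t.1 = pres ℤ G e t := by
  simp only [bigM, Matrix.of_apply]
  rw [KK_sorted e.2.1 t.2.1 t.2.2]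
  rfl

theorem sort_col (t : Fin n × Fin n × Fin n) :
    (∀ e : NE G, bigM G (X : Fin n → MvPolynomial (Fin n) ℤ) e t = 0) ∨
      ∃ (t' : Tri n) (u : ℤˣ), ∀ e : NE G,
        bigM G (X : Fin n → MvPolynomial (Fin n) ℤ) e t = C (u : ℤ) * pres ℤ G e t' := by
  obtain ⟨a, b, c⟩ := t
  by_cases hab : a = b
  · left; subst hab; intro e; simp only [bigM, Matrix.of_apply, KK]; ring
  by_cases hbc : b = c
  · left; subst hbc; intro e; simp only [bigM, Matrix.of_apply, KK]; ring
  by_cases hac : a = c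
  · left; subst hac; intro e; simp only [bigM, Matrix.of_apply, KK]; ring
  right
  have key : ∀ (p q r : Fin n) (hpq : p < q) (hqr : q < r) (u : ℤˣ),
      (∀ i j, KK (X : Fin n → MvPolynomial (Fin n) ℤ) i j a b c =
        C (u : ℤ) * KK (X : Fin n → MvPolynomial (Fin n) ℤ) i j p q r) →
      ∃ (t' : Tri n) (u : ℤˣ), ∀ e : NE G,
        bigM G (X : Fin n → MvPolynomial (Fin n) ℤ) e (a, b, c) = C (u : ℤ) * pres ℤ G e t' := by
    intro p q r hpq hqr u h
    refine ⟨⟨(p, q, r), hpq, hqr⟩, u, fun e => ?_⟩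
    rw [← bigM_sorted]
    exact h _ _
  rcases lt_or_gt_of_ne hab with h1 | h1
  · rcases lt_or_gt_of_ne hbc with h2 | h2
    · exact key a b c h1 h2 1 (fun i j => by simp)
    · rcases lt_or_gt_of_ne hac with h3 | h3
      · exact key a c b h3 h2 (-1) (fun i j => by simp [KK]; ring)
      · exact key c a b h3 h1 1 (fun i j => by simp [KK]; ring)
  · rcases lt_or_gt_of_ne hbc with h2 | h2
    · rcases lt_or_gt_of_ne hac with h3 | h3
      · exact key b a c h1 h3 (-1) (fun i j => by simp [KK]; ring)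
      · exact key b c a h2 h3 1 (fun i j => by simp [KK]; ring)
    · exact key c b a h2 h1 (-1) (fun i j => by simp [KK]; ring)

theorem big_minor (I : NE G → Fin n × Fin n × Fin n) :
    ∃ (A : Fin n →₀ ℕ) (c : ℤ),
      ((bigM G (X : Fin n → MvPolynomial (Fin n) ℤ)).submatrix id I).det = monomial A c ∧
      (c ≠ 0 → ∃ (I' : NE G → Tri n) (c' : ℤ), c' ≠ 0 ∧
        ((pres ℤ G).submatrix id I').det = monomial A c') := by
  classical
  by_cases h0 : ∃ f, ∀ e : NE G, bigM G (X : Fin n → MvPolynomial (Fin n) ℤ) e (I f) = 0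
  · obtain ⟨f, hf⟩ := h0
    refine ⟨0, 0, ?_, fun h => absurd rfl h⟩
    rw [map_zero]
    exact Matrix.det_eq_zero_of_column_eq_zero f hf
  · have h1 : ∀ f, ∃ (t' : Tri n) (u : ℤˣ), ∀ e : NE G,
        bigM G (X : Fin n → MvPolynomial (Fin n) ℤ) e (I f) = C (u : ℤ) * pres ℤ G e t' :=
      fun f => (sort_col G (I f)).resolve_left fun h => h0 ⟨f, h⟩
    choose I' u hu using h1
    have h2 : (bigM G (X : Fin n → MvPolynomial (Fin n) ℤ)).submatrix id I =
        (pres ℤ G).submatrix id I' * Matrix.diagonal (fun f => C ((u f : ℤˣ) : ℤ)) := by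
      ext1 e f
      rw [Matrix.mul_diagonal]
      simp only [Matrix.submatrix_apply, id]
      rw [hu f e, mul_comm]
    obtain ⟨A, c, hc⟩ := minor_monomial (S := ℤ) G I'
    refine ⟨A, c * ∏ f, ((u f : ℤˣ) : ℤ), ?_, fun hne => ⟨I', c, left_ne_zero_of_mul hne, hc⟩⟩
    rw [h2, Matrix.det_mul, Matrix.det_diagonal, hc, ← map_prod, mul_comm, C_mul_monomial, mul_comm]

end Sorting

/-! ### Comparison of supports -/

theorem supp_transfer {ι κ : Type*} [Fintype ι] [Fintype κ] (a : ι → Fin n →₀ ℕ) (p : ι → ℤ)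
    (b : κ → Fin n →₀ ℕ) (q : κ → ℤ) (hp : ∀ i, 0 ≤ p i) (α β : ℤ) (hα : 0 < α)
    (h : C α * ∑ i, monomial (2 • a i) (p i) = C β * ∑ j, monomial (2 • b j) (q j))
    (i0 : ι) (hi0 : p i0 ≠ 0) : ∃ j, q j ≠ 0 ∧ b j = a i0 := by
  classical
  by_contra hcon
  push Not at hcon
  have h1 := congrArg (coeff (2 • a i0)) h
  rw [coeff_C_mul, coeff_C_mul, coeff_sum, coeff_sum] at h1
  have h2 : ∑ j, coeff (2 • a i0) (monomial (2 • b j) (q j)) = 0 := by
    refine Finset.sum_eq_zero fun j _ => ?_
    rw [coeff_monomial]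
    split_ifs with h3
    · by_contra hq
      apply hcon j hq
      ext v
      have := DFunLike.congr_fun h3 v
      simp only [Finsupp.smul_apply, smul_eq_mul] at this
      omega
    · rfl
  rw [h2, mul_zero] at h1
  have h3 : 0 < ∑ i, coeff (2 • a i0) (monomial (2 • a i) (p i)) := by
    refine Finset.sum_pos' (fun i _ => ?_) ⟨i0, Finset.mem_univ _, ?_⟩
    · rw [coeff_monomial]
      split_ifs
      · exact hp i
      · exact le_rfl
    · rw [coeff_monomial, if_pos rfl]
      exact lt_of_le_of_ne (hp i0) hi0.symm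
  have := mul_pos hα h3
  omega

theorem exists_word : ∀ (K : ℕ) (d : Fin n →₀ ℕ), d.degree = K →
    ∃ w : Fin K → Fin n, ∑ k, Finsupp.single (w k) 1 = d := by
  intro K
  induction K with
  | zero =>
    intro d hd
    refine ⟨Fin.elim0, ?_⟩
    have : d = 0 := (Finsupp.degree_eq_zero_iff d).1 hd
    simp [this]
  | succ K ih =>
    intro d hd
    have hne : d ≠ 0 := by
      rintro rfl
      simp at hd
    obtain ⟨i, hi⟩ := Finsupp.support_nonempty_iff.2 hne
    have hle : Finsupp.single i 1 ≤ d := by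
      rw [Finsupp.single_le_iff]
      exact Nat.one_le_iff_ne_zero.2 (Finsupp.mem_support_iff.1 hi)
    obtain ⟨d', rfl⟩ := exists_add_of_le hle
    have hd' : d'.degree = K := by
      rw [map_add, Finsupp.degree_single] at hd
      omega
    obtain ⟨w, hw⟩ := ih d' hd'
    refine ⟨Fin.cons i w, ?_⟩
    rw [Fin.sum_univ_succ]
    simp only [Fin.cons_zero, Fin.cons_succ]
    rw [hw]

section Main

variable [NeZero n] (G : SimpleGraph (Fin n))

/-- The exponents of the monomial of a spanning tree, in terms of `J`. -/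
noncomputable def gJ (J : Fin n → Option (EE G)) : Fin n →₀ ℕ :=
  Finsupp.equivFunOnFinite.symm fun v => expJ G J v - 1

theorem prod_wt (J : Fin n → Option (EE G)) :
    ∏ w, wt G (X : Fin n → MvPolynomial (Fin n) ℤ) (J w) =
      monomial (Finsupp.equivFunOnFinite.symm (expJ G J)) 1 := by
  classical
  have h1 : ∀ w, wt G (X : Fin n → MvPolynomial (Fin n) ℤ) (J w) =
      monomial (match J w with
        | none => 0
        | some e => Finsupp.single e.1.1 1 + Finsupp.single e.1.2 1) 1 := by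
    intro w
    rcases J w with _ | e
    · rfl
    · simp only [wt, X, monomial_mul, one_mul]
  rw [Finset.prod_congr rfl fun w _ => h1 w, ← MvPolynomial.monomial_sum_one]
  have h2 : (∑ w, (match J w with
        | none => (0 : Fin n →₀ ℕ)
        | some e => Finsupp.single e.1.1 1 + Finsupp.single e.1.2 1)) =
      Finsupp.equivFunOnFinite.symm (expJ G J) := by
    ext v
    rw [Finsupp.finsetSum_apply]
    simp only [Finsupp.equivFunOnFinite_symm_apply_apply, expJ]
    refine Finset.sum_congr rfl fun w _ => ?_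
    rcases J w with _ | e
    · rfl
    · simp [Finsupp.single_apply]
  rw [h2]

theorem prod_X : ∏ v, (X v : MvPolynomial (Fin n) ℤ) =
    monomial (Finsupp.equivFunOnFinite.symm fun _ => 1) 1 := by
  classical
  simp only [X]
  rw [← MvPolynomial.monomial_sum_one]
  have h2 : (∑ v : Fin n, Finsupp.single v 1) = Finsupp.equivFunOnFinite.symm fun _ => 1 := by
    ext v
    rw [Finsupp.finsetSum_apply]
    simp [Finsupp.single_apply]
  rw [h2]

theorem expJ_pos (hn : 2 ≤ n) {J : Fin n → Option (EE G)} (h : (redM G J).det ≠ 0) (v : Fin n) :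
    1 ≤ expJ G J v := by
  classical
  rw [expJ_eq G (inj_of_det G h)]
  have hconn := connected_of_det G h
  haveI : Nontrivial (Fin n) := Fin.nontrivial_iff_two_le.2 hn
  obtain ⟨u, hu⟩ := exists_ne v
  obtain ⟨p⟩ := hconn.preconnected v u
  have : ∃ z, (grJ G J).Adj v z := by
    cases p with
    | nil => exact absurd rfl hu
    | cons h _ => exact ⟨_, h⟩
  obtain ⟨z, hz⟩ := this
  rw [Nat.one_le_iff_ne_zero, Ne, Set.ncard_eq_zero]
  exact fun h => Set.notMem_empty z (h ▸ hz)

theorem det_matC_X (hn : 2 ≤ n) (J : Fin n → Option (EE G)) :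
    ((matC G (X : Fin n → MvPolynomial (Fin n) ℤ)).submatrix id J).det =
      (∑ v, X v ^ 2) * monomial (gJ G J) (redM G J).det := by
  have hne : (∏ v, (X v : MvPolynomial (Fin n) ℤ)) ≠ 0 :=
    Finset.prod_ne_zero_iff.2 fun v _ => MvPolynomial.X_ne_zero v
  apply mul_left_cancel₀ hne
  rw [det_matC, prod_wt]
  by_cases h : (redM G J).det = 0
  · rw [h]; simp
  · rw [prod_X, mul_left_comm, monomial_mul, one_mul, mul_assoc]
    congr 1
    have h1 : (Finsupp.equivFunOnFinite.symm fun _ => 1) + gJ G J =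
        Finsupp.equivFunOnFinite.symm (expJ G J) := by
      ext v
      have := expJ_pos G hn h v
      simp only [Finsupp.add_apply, gJ, Finsupp.equivFunOnFinite_symm_apply_apply]
      omega
    rw [h1]
    rw [← eq_intCast (C : ℤ →+* MvPolynomial (Fin n) ℤ) (redM G J).det, C_mul_monomial, mul_one]

theorem sq_sum_ne_zero (hn : 1 ≤ n) : (∑ v, (X v : MvPolynomial (Fin n) ℤ) ^ 2) ≠ 0 := by
  intro h
  have h1 := congrArg (MvPolynomial.eval (fun _ => (1 : ℤ))) h
  simp at h1
  omega

theorem main_identity (hn : 2 ≤ n) (hE : n ≤ Fintype.card (NE G) + 2) :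
    C (n.factorial : ℤ) * ∑ I : NE G → Fin n × Fin n × Fin n,
        ((bigM G (X : Fin n → MvPolynomial (Fin n) ℤ)).submatrix id I).det ^ 2 =
      C (((Fintype.card (NE G)).factorial : ℤ) * 6 ^ Fintype.card (NE G)) *
        ∑ p : (Fin (Fintype.card (NE G) + 2 - n) → Fin n) × (Fin n → Option (EE G)),
          monomial (2 • (∑ k, Finsupp.single (p.1 k) 1 + gJ G p.2)) ((redM G p.2).det ^ 2) := by
  classical
  set N := Fintype.card (NE G) with hN
  have h1 := cb_self (bigM G (X : Fin n → MvPolynomial (Fin n) ℤ))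
  have h2 := cb_self (matC G (X : Fin n → MvPolynomial (Fin n) ℤ))
  have h3 := det_gram G (X : Fin n → MvPolynomial (Fin n) ℤ)
  rw [← hN] at h1 h3
  rw [Fintype.card_fin] at h2
  have h4 : ∑ J : Fin n → Option (EE G),
      ((matC G (X : Fin n → MvPolynomial (Fin n) ℤ)).submatrix id J).det ^ 2 =
      (∑ v, X v ^ 2) ^ 2 * ∑ J : Fin n → Option (EE G),
        monomial (2 • gJ G J) ((redM G J).det ^ 2) := by
    rw [Finset.mul_sum]
    refine Finset.sum_congr rfl fun J _ => ?_
    rw [det_matC_X G hn, mul_pow, monomial_pow]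
  have h5 : ∑ p : (Fin (N + 2 - n) → Fin n) × (Fin n → Option (EE G)),
      monomial (2 • (∑ k, Finsupp.single (p.1 k) 1 + gJ G p.2)) ((redM G p.2).det ^ 2) =
      (∑ v, (X v : MvPolynomial (Fin n) ℤ) ^ 2) ^ (N + 2 - n) *
        ∑ J : Fin n → Option (EE G), monomial (2 • gJ G J) ((redM G J).det ^ 2) := by
    rw [Fintype.sum_prod_type, Fintype.sum_pow, Finset.sum_mul]
    refine Finset.sum_congr rfl fun w _ => ?_
    rw [Finset.mul_sum]
    refine Finset.sum_congr rfl fun J _ => ?_
    have h6 : ∏ k, (X (w k) : MvPolynomial (Fin n) ℤ) ^ 2 =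
        monomial (2 • ∑ k, Finsupp.single (w k) 1) 1 := by
      rw [Finset.prod_pow]
      simp only [X]
      rw [← MvPolynomial.monomial_sum_one, monomial_pow, one_pow]
    rw [h6, monomial_mul, one_mul, smul_add]
  rw [h5]
  have hs := sq_sum_ne_zero (n := n) (by omega)
  apply mul_left_cancel₀ (pow_ne_zero n hs)
  have h6 : (∑ v, (X v : MvPolynomial (Fin n) ℤ) ^ 2) ^ n *
      (∑ v, (X v : MvPolynomial (Fin n) ℤ) ^ 2) ^ (N + 2 - n) =
      (∑ v, (X v : MvPolynomial (Fin n) ℤ) ^ 2) ^ N *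
        (∑ v, (X v : MvPolynomial (Fin n) ℤ) ^ 2) ^ 2 := by
    rw [← pow_add, ← pow_add]
    congr 1
    omega
  rw [h4] at h2
  have e1 : (C ((n.factorial : ℕ) : ℤ) : MvPolynomial (Fin n) ℤ) =
      ((n.factorial : ℕ) : MvPolynomial (Fin n) ℤ) := by simp
  have e2 : (C ((((N.factorial : ℕ) : ℤ)) * 6 ^ N) : MvPolynomial (Fin n) ℤ) =
      ((N.factorial : ℕ) : MvPolynomial (Fin n) ℤ) * 6 ^ N := by simp
  rw [← h1, e1, e2]
  linear_combination (n.factorial : MvPolynomial (Fin n) ℤ) * (N.factorial : MvPolynomial (Fin n) ℤ) * h3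
    + (N.factorial : MvPolynomial (Fin n) ℤ) * 6 ^ N * (∑ v, X v ^ 2) ^ N * h2
    - (N.factorial : MvPolynomial (Fin n) ℤ) * 6 ^ N *
      (∑ J : Fin n → Option (EE G), monomial (2 • gJ G J) ((redM G J).det ^ 2)) * h6

end Main

end Q52.Kosz
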