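import Mathlib
import Pool.Agent.Q52.Kosz.Fitt

set_option autoImplicit false

/-! # The Fitting ideal of the Koszul module of a graph: conclusion -/

open Finset Matrix MvPolynomial

namespace Q52.Kosz

variable {n : ℕ} [NeZero n] (G : SimpleGraph (Fin n)) (k : Type*) [Field k] [CharZero k]

/-- The exponents of the monomials which are minors. -/
theorem support_iff (hn : 2 ≤ n) (hE : n ≤ Fintype.card (NE G) + 2) (A : Fin n →₀ ℕ) :
    (∃ (I : NE G → Tri n) (c : ℤ), c ≠ 0 ∧ ((pres ℤ G).submatrix id I).det = monomial A c) ↔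
    ∃ (w : Fin (Fintype.card (NE G) + 2 - n) → Fin n) (J : Fin n → Option (EE G)),
      (redM G J).det ≠ 0 ∧ ∑ k, Finsupp.single (w k) 1 + gJ G J = A := by
  classical
  choose a c h1 h2 using big_minor G
  have hid := main_identity G hn hE
  have h3 : ∀ I, ((bigM G (X : Fin n → MvPolynomial (Fin n) ℤ)).submatrix id I).det ^ 2 =
      monomial (2 • a I) (c I ^ 2) := by
    intro I
    rw [h1, monomial_pow]
  rw [Finset.sum_congr rfl fun I _ => h3 I] at hid
  have hα : 0 < (n.factorial : ℤ) := by exact_mod_cast Nat.factorial_pos n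
  have hβ : 0 < ((Fintype.card (NE G)).factorial : ℤ) * 6 ^ Fintype.card (NE G) := by
    have : 0 < ((Fintype.card (NE G)).factorial : ℤ) := by
      exact_mod_cast Nat.factorial_pos _
    positivity
  constructor
  · rintro ⟨I, c', hc', hI⟩
    have h4 : ((bigM G (X : Fin n → MvPolynomial (Fin n) ℤ)).submatrix id
        (fun e => (I e).1)).det = monomial A c' := by
      rw [← hI]
      congr 1
      ext1 e f
      exact bigM_sorted G e (I f)
    rw [h1] at h4
    have h5 : c (fun e => (I e).1) ≠ 0 ∧ a (fun e => (I e).1) = A := by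
      have h6 := congrArg (coeff A) h4
      rw [coeff_monomial, coeff_monomial, if_pos rfl] at h6
      by_cases h7 : a (fun e => (I e).1) = A
      · rw [if_pos h7] at h6
        exact ⟨h6 ▸ hc', h7⟩
      · rw [if_neg h7] at h6
        exact absurd h6.symm hc'
    obtain ⟨p, hp, hp2⟩ := supp_transfer a (fun I => c I ^ 2)
      (fun p : (Fin (Fintype.card (NE G) + 2 - n) → Fin n) × (Fin n → Option (EE G)) =>
        ∑ k, Finsupp.single (p.1 k) 1 + gJ G p.2) (fun p => (redM G p.2).det ^ 2)
      (fun I => sq_nonneg (c I)) _ _ hα hid (fun e => (I e).1) (pow_ne_zero 2 h5.1)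
    refine ⟨p.1, p.2, fun h => hp ?_, hp2.trans h5.2⟩
    show (redM G p.2).det ^ 2 = 0
    rw [h]; rfl
  · rintro ⟨w, J, hJ, hA⟩
    obtain ⟨I, hI, hI2⟩ := supp_transfer
      (fun p : (Fin (Fintype.card (NE G) + 2 - n) → Fin n) × (Fin n → Option (EE G)) =>
        ∑ k, Finsupp.single (p.1 k) 1 + gJ G p.2) (fun p => (redM G p.2).det ^ 2)
      a (fun I => c I ^ 2) (fun p => sq_nonneg ((redM G p.2).det)) _ _ hβ
      hid.symm (w, J) (pow_ne_zero 2 hJ)
    have h4 : c I ≠ 0 := by
      intro h
      apply hI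
      show c I ^ 2 = 0
      rw [h]; rfl
    obtain ⟨I', c', hc', hI'⟩ := h2 I h4
    exact ⟨I', c', hc', by rw [hI', hI2, hA]⟩

theorem monomial_gJ {J : Fin n → Option (EE G)} (h : (redM G J).det ≠ 0) (S : Type*)
    [CommRing S] : (monomial (gJ G J) 1 : MvPolynomial (Fin n) S) =
      ∏ i, X i ^ (((grJ G J).neighborSet i).ncard - 1) := by
  rw [monomial_eq, C_1, one_mul, Finsupp.prod_fintype _ _ (fun i => by simp)]
  refine Finset.prod_congr rfl fun i _ => ?_
  congr 1
  simp only [gJ, Finsupp.equivFunOnFinite_symm_apply_apply]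
  rw [expJ_eq G (inj_of_det G h)]

theorem degree_word {K : ℕ} (w : Fin K → Fin n) :
    (∑ k, Finsupp.single (w k) 1).degree = K := by
  rw [map_sum]
  simp

theorem fitt_eq (hn : 2 ≤ n) (hE : n ≤ Fintype.card (NE G) + 2) :
    Fitt k G = treeIdeal k G *
      Ideal.span (Set.range (X : Fin n → MvPolynomial (Fin n) k)) ^
        (Fintype.card (NE G) + 2 - n) := by
  classical
  apply le_antisymm
  · rw [Fitt, Ideal.span_le]
    rintro _ ⟨I, _, rfl⟩
    rw [SetLike.mem_coe, minor_map]
    obtain ⟨A, c, hc⟩ := minor_monomial (S := ℤ) G I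
    rw [hc]
    by_cases h0 : c = 0
    · rw [h0, map_zero, map_zero]; exact Ideal.zero_mem _
    · obtain ⟨w, J, hJ, hA⟩ := (support_iff G hn hE A).1 ⟨I, c, h0, hc⟩
      have h1 : MvPolynomial.map (Int.castRingHom k) (monomial A c) =
          C (c : k) * (monomial (gJ G J) 1 * monomial (∑ k, Finsupp.single (w k) 1) 1) := by
        rw [map_monomial, monomial_mul, one_mul, C_mul_monomial, mul_one, add_comm, hA]
        rfl
      rw [h1]
      refine Ideal.mul_mem_left _ _ (Ideal.mul_mem_mul ?_ ?_)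
      · rw [monomial_gJ G hJ]
        exact Ideal.subset_span ⟨_, grJ_le G J, isTree_of_det G hJ, rfl⟩
      · exact (monomial_mem_pow_idealOfVars_iff _ _ one_ne_zero).2 (degree_word w).ge
  · have h0 : Ideal.span (Set.range (X : Fin n → MvPolynomial (Fin n) k)) ^
        (Fintype.card (NE G) + 2 - n) = Ideal.span ((monomial · 1) '' Finsupp.degree ⁻¹'
          {Fintype.card (NE G) + 2 - n}) := pow_idealOfVars_eq_span _
    rw [treeIdeal, h0, Ideal.span_mul_span', Ideal.span_le]
    rintro _ ⟨_, ⟨T, hT, htree, rfl⟩, _, ⟨d, hd, rfl⟩, rfl⟩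
    rw [SetLike.mem_coe]
    obtain ⟨J, hJ, hJT⟩ := exists_of_isTree G hT htree
    obtain ⟨w, hw⟩ := exists_word _ d hd
    obtain ⟨I, c, hc, hI⟩ := (support_iff G hn hE _).2 ⟨w, J, hJ, rfl⟩
    have hck : (c : k) ≠ 0 := by exact_mod_cast hc
    have hdet : ((pres k G).submatrix id I).det =
        monomial (∑ k, Finsupp.single (w k) 1 + gJ G J) (c : k) := by
      rw [minor_map, hI, map_monomial]; rfl
    have hinj : Function.Injective I := by
      intro e f hef
      by_contra hne
      have h1 : ((pres k G).submatrix id I).det = 0 :=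
        Matrix.det_zero_of_column_eq hne fun v => by simp [hef]
      rw [hdet, monomial_eq_zero] at h1
      exact hck h1
    have h2 : (∏ i, (X i : MvPolynomial (Fin n) k) ^ ((T.neighborSet i).ncard - 1)) *
        monomial d 1 = C ((c : k)⁻¹) * ((pres k G).submatrix id I).det := by
      rw [hdet, C_mul_monomial, inv_mul_cancel₀ hck, ← hJT, ← monomial_gJ G hJ, monomial_mul,
        one_mul, hw, add_comm]
    show (∏ i, (X i : MvPolynomial (Fin n) k) ^ ((T.neighborSet i).ncard - 1)) *
        monomial d 1 ∈ _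
    rw [h2]
    exact Ideal.mul_mem_left _ _ (Ideal.subset_span ⟨I, hinj, rfl⟩)

end Q52.Kosz
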